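import Pool.Agent.V1174.SerreA.Main

/-!
# Serre's condition after removing an excellent set of faces

If `Δ` satisfies `(S_ℓ)` and `A ⊆ Δ` is excellent then `Δ_A` satisfies `(S_ℓ)`.

Serre's condition is used in its standard homological form (Reisner, Hochster, Terai): for every
face `σ` (including `∅`) and every integer `-1 ≤ i < min(ℓ - 1, dim lk σ)` the reduced homology
`H̃_i(lk σ; k)` vanishes. Reduced simplicial homology is written out with chains
`c : Finset V → k`; the linear order of `V` only serves to fix the signs.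

Idea. For `σ ∈ Δ_A` put `Γ = lk_Δ σ`. Then `lk_{Δ_A} σ = Γ_{A'}` where `A' = {τ ∖ σ : τ ∈ A,
τ ∪ σ ∈ Δ}` is independent, and every relative cycle of `(Γ, Γ_{A'})` is a sum over `τ' ∈ A'` of
cycles of the links `lk_Γ τ' = lk_Δ(σ ∪ τ')` in degree lowered by `|τ'| ≥ 1`. Hence
`H̃_{i+1}(Γ, Γ_{A'}) = ⨁ H̃_{i+1-|τ'|}(lk_Δ(σ ∪ τ'))`, and for `i < min(ℓ - 1, dim Γ_{A'})` both
`H̃_{i+1}(Γ, Γ_{A'})` and `H̃_i(Γ)` vanish, because `Δ` is pure for `ℓ ≥ 2` (proved in the helper
file from `(S_2)`) and `dim Γ_{A'} < dim Γ`.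
-/

set_option autoImplicit false

namespace Pool.Agent.Results.MP_346585_al.ExcellentSerre

open Pool.Agent.V1174.SerreA

variable {V : Type*} [Fintype V] [LinearOrder V]

open Classical in
/-- The dimension of a simplicial complex: the largest number of elements of a face, minus `1`. -/
noncomputable def dim (Γ : Cx V) : ℤ :=
  ((((Finset.univ : Finset (Finset V)).filter (· ∈ Γ.faces)).sup Finset.card : ℕ) : ℤ) - 1

/-- The reduced homology `H̃_i(Γ; k)` vanishes (`i ≥ -1`): every cycle supported on the faces with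
`i + 1` elements is the boundary of a chain supported on the faces with `i + 2` elements. -/
def HomologyVanishes (k : Type*) [Field k] (Γ : Cx V) (i : ℤ) : Prop := Acyc k Γ (i + 1).toNat

/-- Serre's condition `(S_ℓ)` over `k`, in homological form. -/
def SerreCondition (k : Type*) [Field k] (ℓ : ℕ) (Δ : Cx V) : Prop :=
  ∀ σ ∈ Δ.faces, ∀ i : ℤ, -1 ≤ i → i < min ((ℓ : ℤ) - 1) (dim (Δ.link σ)) →
    HomologyVanishes k (Δ.link σ) i

theorem lt_dim_iff (Γ : Cx V) (j : ℕ) : ((j : ℤ) - 1 < dim Γ) ↔ ∃ ρ ∈ Γ.faces, j < ρ.card := by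
  classical
  unfold dim
  constructor
  · intro h
    have h1 : j < ((Finset.univ : Finset (Finset V)).filter (· ∈ Γ.faces)).sup Finset.card := by
      have : (j : ℤ) < (((Finset.univ : Finset (Finset V)).filter (· ∈ Γ.faces)).sup
        Finset.card : ℕ) := by linarith
      exact_mod_cast this
    rw [Finset.lt_sup_iff] at h1
    obtain ⟨ρ, hρ, h2⟩ := h1
    exact ⟨ρ, (Finset.mem_filter.1 hρ).2, h2⟩
  · rintro ⟨ρ, hρ, h⟩
    have h1 : j < ((Finset.univ : Finset (Finset V)).filter (· ∈ Γ.faces)).sup Finset.card := by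
      rw [Finset.lt_sup_iff]
      exact ⟨ρ, Finset.mem_filter.2 ⟨Finset.mem_univ _, hρ⟩, h⟩
    have : (j : ℤ) < (((Finset.univ : Finset (Finset V)).filter (· ∈ Γ.faces)).sup
        Finset.card : ℕ) := by exact_mod_cast h1
    linarith

theorem serre_iff (k : Type*) [Field k] (ℓ : ℕ) (Δ : Cx V) :
    SerreCondition k ℓ Δ ↔ SerreJ k ℓ Δ := by
  constructor
  · intro h σ hσ j hj hex
    have := h σ hσ ((j : ℤ) - 1) (by omega) (lt_min (by omega) ((lt_dim_iff _ j).2 hex))
    unfold HomologyVanishes at this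
    simpa using this
  · intro h σ hσ i hi hlt
    obtain ⟨h1, h2⟩ := lt_min_iff.1 hlt
    obtain ⟨j, hj⟩ : ∃ j : ℕ, i = (j : ℤ) - 1 := ⟨(i + 1).toNat, by omega⟩
    subst hj
    have h3 := h σ hσ j (by omega) ((lt_dim_iff _ j).1 h2)
    unfold HomologyVanishes
    simpa using h3

/-- **Q1.** If `A` is an excellent set of faces of `Δ` and `Δ` satisfies `(S_ℓ)` over `k`, then
`Δ_A` satisfies `(S_ℓ)` over `k`. -/
theorem result (V : Type*) [Fintype V] [LinearOrder V] (k : Type*) [Field k] (ℓ : ℕ) (Δ : Cx V)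
    (A : Set (Finset V)) (hA : Excellent Δ A) (hΔ : SerreCondition k ℓ Δ) :
    SerreCondition k ℓ (Δ.remove A) :=
  (serre_iff k ℓ _).2 (mainJ ((serre_iff k ℓ Δ).1 hΔ) hA)

end Pool.Agent.Results.MP_346585_al.ExcellentSerre
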